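import Pool.Agent.Helper856.Q8.FinalB
import Pool.Agent.Helper856.Q8.CertX
import Pool.Agent.Helper856.Q8.CertS
import Pool.Agent.Helper856.Q8.CsAll
import Pool.Agent.Helper856.Q8.FinalC
import Pool.Agent.Helper856.Q8.GlinSmall

set_option autoImplicit false

open SimpleGraph

namespace Pool.Agent.Results.MP_563ce7_co.BoundedCliqueWidth

/-- the family of the vertex sets of the induced four-vertex paths of `G` inside `S` -/
def inducedP4s {V : Type} (G : SimpleGraph V) (S : Finset V) : Set (Finset V) :=
  {A : Finset V | A ⊆ S ∧ A.card = 4 ∧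
    Nonempty (G.induce (A : Set V) ≃g SimpleGraph.pathGraph 4)}

/-- `G` is a `(q, t)`-graph: every set of exactly `q` vertices contains at most `t` distinct
induced four-vertex paths -/
def IsQT (q t : ℕ) {V : Type} (G : SimpleGraph V) : Prop :=
  ∀ S : Finset V, S.card = q → (inducedP4s G S).ncard ≤ t

/-- the labelled graphs that can be built with `k` labels: the empty graph, one vertex, disjoint
union, renaming of the vertices, changing label `i` into label `j`, and adding all edges between
label `i` and label `j` for different `i`, `j` -/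
inductive Built (k : ℕ) : ∀ V : Type, SimpleGraph V → (V → Fin k) → Prop
  | empty : Built k PEmpty ⊥ PEmpty.elim
  | vertex (i : Fin k) : Built k Unit ⊥ (fun _ => i)
  | union (V₁ V₂ : Type) (G₁ : SimpleGraph V₁) (G₂ : SimpleGraph V₂) (l₁ : V₁ → Fin k)
      (l₂ : V₂ → Fin k) : Built k V₁ G₁ l₁ → Built k V₂ G₂ l₂ →
      Built k (V₁ ⊕ V₂) (G₁.map Function.Embedding.inl ⊔ G₂.map Function.Embedding.inr)
        (Sum.elim l₁ l₂)
  | rename (V V' : Type) (G : SimpleGraph V) (l : V → Fin k) (e : V ≃ V') : Built k V G l →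
      Built k V' (G.map e.toEmbedding) (l ∘ e.symm)
  | relabel (V : Type) (G : SimpleGraph V) (l : V → Fin k) (i j : Fin k) : Built k V G l →
      Built k V G (fun x => if l x = i then j else l x)
  | join (V : Type) (G : SimpleGraph V) (l : V → Fin k) (i j : Fin k) : i ≠ j → Built k V G l →
      Built k V (G ⊔ SimpleGraph.fromRel (fun x y => l x = i ∧ l y = j)) l

/-- `G` has clique-width at most `k` -/
def CliqueWidthLE {V : Type} (G : SimpleGraph V) (k : ℕ) : Prop := ∃ l : V → Fin k, Built k V G l

theorem of_cs {V : Type} [Fintype V] {G : SimpleGraph V} {k : ℕ} {l : V → Fin k}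
    (hl : Pool.Agent.Helper856.Q8.CS k G ((Finset.univ : Finset V) : Set V) l) : Built k V G l := by
  have h7 := hl (Built k) ⟨Built.empty, Built.vertex, Built.union, Built.rename, Built.relabel,
    Built.join⟩
  let e : ((Finset.univ : Finset V) : Set V) ≃ V :=
    { toFun := fun x => x.1
      invFun := fun x => ⟨x, by simp⟩
      left_inv := fun x => rfl
      right_inv := fun x => rfl }
  have h8 := Built.rename _ V _ _ e h7
  have h9 : (G.induce ((Finset.univ : Finset V) : Set V)).map e.toEmbedding = G := by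
    ext a b
    rw [SimpleGraph.map_adj]
    constructor
    · rintro ⟨u, v, h, rfl, rfl⟩
      exact h
    · intro h
      exact ⟨⟨a, by simp⟩, ⟨b, by simp⟩, h, rfl, rfl⟩
  rw [h9] at h8
  exact h8

/-- For every `q ≥ 8` the `(q, q - 2)`-graphs have bounded clique-width. -/
theorem result : ∀ q : ℕ, 8 ≤ q → ∃ k : ℕ, ∀ (V : Type) [Fintype V] (G : SimpleGraph V),
    IsQT q (q - 2) G → CliqueWidthLE G k := by
  intro q hq
  obtain ⟨t, ht⟩ := Pool.Agent.Helper856.Q8.FinalB.final_bound
    Pool.Agent.Helper856.Q8.CertX.certsOK Pool.Agent.Helper856.Q8.CertS.spOK q hq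
  refine ⟨2 * (max t q) + 1, fun V _ G hG => ?_⟩
  have key : ∀ R : Set V, Pool.Agent.Helper856.Q8.Prime (G.induce R) →
      Pool.Agent.Helper856.Lcw.GLin (max t q) (G.induce R) := by
    intro R hR
    by_cases hV : q ≤ Fintype.card V
    · refine Pool.Agent.Helper856.Q8.GlinSmall.glin_mono (ht V G ?_ R hR) (le_max_left _ _)
      apply Pool.Agent.Helper856.Q8.FinalC.cls_of
      intro S hS
      obtain ⟨S', hSS, hc⟩ := Finset.exists_superset_card_eq (s := S) (n := q) hS hV
      refine le_trans (Set.ncard_le_ncard ?_ (Set.toFinite _)) (hG S' hc)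
      rintro A ⟨h1, h2, h3⟩
      exact ⟨h1.trans hSS, h2, h3⟩
    · classical
      have h1 : Fintype.card R ≤ Fintype.card V := Fintype.card_subtype_le _
      have h2 : q ≤ max t q := le_max_right _ _
      exact Pool.Agent.Helper856.Q8.GlinSmall.glin_small (by omega)
  obtain ⟨l, hl⟩ := Pool.Agent.Helper856.Q8.CsAll.cs_all (k := 2 * (max t q) + 1) (t := max t q)
    le_rfl key (Finset.univ : Finset V)
  exact ⟨l, of_cs hl⟩

end Pool.Agent.Results.MP_563ce7_co.BoundedCliqueWidth
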